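import Mathlib
import Pool.Agent.ACK.StmtsD

/-!
# Squad ACK, row WCL (helper95): letters of the pattern words
-/

set_option autoImplicit false

namespace Pool.Agent.ACK.H95

open Pool.Agent.ACK Pool.Agent.ACK.D

theorem mem_run (i : Fin 6) (t' d : Bool) (n x : ℕ) (t : Bool) :
    (x, t) ∈ run i t' d n ↔ t = t' ∧ cx x = i ∧ x / 6 < n := by
  have key : (x, t) ∈ ((List.range n).map fun s => (6 * s + i.1, t')) ↔
      t = t' ∧ cx x = i ∧ x / 6 < n := by
    rw [List.mem_map]
    constructor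
    · rintro ⟨s, hs, hst⟩
      rw [List.mem_range] at hs
      rw [Prod.mk.injEq] at hst
      obtain ⟨h1, h2⟩ := hst
      have hi := i.2
      refine ⟨h2.symm, ?_, ?_⟩
      · apply Fin.ext
        show x % 6 = i.1
        omega
      · omega
    · rintro ⟨h1, h2, h3⟩
      refine ⟨x / 6, List.mem_range.2 h3, ?_⟩
      have h4 : x % 6 = i.1 := by rw [← h2]; rfl
      rw [Prod.mk.injEq]
      exact ⟨by omega, h1.symm⟩
  unfold run
  split_ifs
  · rw [List.mem_reverse]
    exact key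
  · exact key

theorem nodup_run (i : Fin 6) (t' d : Bool) (n : ℕ) : (run i t' d n).Nodup := by
  have key : ((List.range n).map fun s => (6 * s + i.1, t')).Nodup := by
    apply List.Nodup.map _ List.nodup_range
    intro s s' h
    have h1 : 6 * s + i.1 = 6 * s' + i.1 := congrArg Prod.fst h
    omega
  unfold run
  split_ifs
  · rw [List.nodup_reverse]
    exact key
  · exact key

theorem length_run (i : Fin 6) (t' d : Bool) (n : ℕ) : (run i t' d n).length = n := by
  unfold run
  split_ifs <;> simp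

theorem inj1 : ∀ p q : Fin 12, pat1.ch p = pat1.ch q → pat1.st p = pat1.st q → p = q := by
  decide

theorem inj2 : ∀ p q : Fin 12, pat2.ch p = pat2.ch q → pat2.st p = pat2.st q → p = q := by
  decide

theorem sur1 : ∀ (i : Fin 6) (t : Bool), ∃ p : Fin 12, pat1.ch p = i ∧ pat1.st p = t := by
  decide

theorem sur2 : ∀ (i : Fin 6) (t : Bool), ∃ p : Fin 12, pat2.ch p = i ∧ pat2.st p = t := by
  decide

theorem sum1 (a : Fin 6 → ℕ) : ∑ p : Fin 12, a (pat1.ch p) = 2 * ∑ i, a i := by
  simp only [Fin.sum_univ_succ, pat1]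
  simp
  ring

theorem sum2 (a : Fin 6 → ℕ) : ∑ p : Fin 12, a (pat2.ch p) = 2 * ∑ i, a i := by
  simp only [Fin.sum_univ_succ, pat2]
  simp
  ring

theorem wcl_aux (P : Pat)
    (hinj : ∀ p q : Fin 12, P.ch p = P.ch q → P.st p = P.st q → p = q)
    (hsur : ∀ (i : Fin 6) (t : Bool), ∃ p : Fin 12, P.ch p = i ∧ P.st p = t)
    (a : Fin 6 → ℕ) (hsum : ∑ p : Fin 12, a (P.ch p) = 2 * ∑ i, a i) :
    (W2 P a).Nodup ∧ (Wd P a).length = 2 * ∑ i, a i ∧
    (∀ x t, (x, t) ∈ W2 P a ↔ x / 6 < a (cx x)) ∧ (∀ x, x ∈ Wd P a ↔ x / 6 < a (cx x)) ∧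
    Gw (Wd P a) := by
  have h1 : (W2 P a).Nodup := by
    unfold W2
    rw [List.nodup_flatMap]
    refine ⟨fun p _ => nodup_run _ _ _ _, ?_⟩
    have h := List.nodup_finRange 12
    refine List.Pairwise.imp ?_ h
    intro p q hpq z hz hz'
    obtain ⟨x, t⟩ := z
    have e1 := (mem_run _ _ _ _ _ _).1 hz
    have e2 := (mem_run _ _ _ _ _ _).1 hz'
    exact hpq (hinj p q (e1.2.1.symm.trans e2.2.1) (e1.1.symm.trans e2.1))
  have h3 : ∀ x t, (x, t) ∈ W2 P a ↔ x / 6 < a (cx x) := by
    intro x t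
    unfold W2
    rw [List.mem_flatMap]
    constructor
    · rintro ⟨p, _, hp⟩
      have e1 := (mem_run _ _ _ _ _ _).1 hp
      rw [e1.2.1]
      exact e1.2.2
    · intro hx
      obtain ⟨p, hp1, hp2⟩ := hsur (cx x) t
      refine ⟨p, List.mem_finRange p, (mem_run _ _ _ _ _ _).2 ⟨hp2.symm, hp1.symm, ?_⟩⟩
      rw [hp1]
      exact hx
  have h4 : ∀ x, x ∈ Wd P a ↔ x / 6 < a (cx x) := by
    intro x
    unfold Wd
    rw [List.mem_map]
    constructor
    · rintro ⟨⟨y, t⟩, hy, hyx⟩
      have e : y = x := hyx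
      subst e
      exact (h3 _ _).1 hy
    · intro hx
      exact ⟨(x, false), (h3 x false).2 hx, rfl⟩
  refine ⟨h1, ?_, h3, h4, ?_⟩
  · rw [← hsum]
    unfold Wd W2
    rw [List.length_map, List.length_flatMap]
    have e : (fun p : Fin 12 => (run (P.ch p) (P.st p) (P.st p && !(P.pr (P.ch p)))
        (a (P.ch p))).length) = fun p => a (P.ch p) := by
      funext p
      exact length_run _ _ _ _
    rw [e, Fin.sum_univ_def]
  · intro x hx
    have hx' := (h4 x).1 hx
    unfold Wd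
    rw [List.count_eq_countP, List.countP_map, List.countP_eq_length_filter]
    have hp : ((W2 P a).filter ((fun y => y == x) ∘ Prod.fst)).Perm [(x, false), (x, true)] := by
      rw [List.perm_ext_iff_of_nodup (h1.filter _) (by simp)]
      rintro ⟨y, t⟩
      rw [List.mem_filter, h3]
      simp only [Function.comp, beq_iff_eq, List.mem_cons, Prod.mk.injEq, List.not_mem_nil, or_false]
      constructor
      · rintro ⟨_, rfl⟩
        cases t
        · exact Or.inl ⟨rfl, rfl⟩
        · exact Or.inr ⟨rfl, rfl⟩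
      · rintro (⟨rfl, _⟩ | ⟨rfl, _⟩)
        · exact ⟨hx', rfl⟩
        · exact ⟨hx', rfl⟩
    rw [hp.length_eq]
    rfl

theorem wcl : WclStmt := by
  intro P hP a
  rcases hP with rfl | rfl
  · exact wcl_aux pat1 inj1 sur1 a (sum1 a)
  · exact wcl_aux pat2 inj2 sur2 a (sum2 a)

end Pool.Agent.ACK.H95
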