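import Mathlib
import Pool.Agent.ACK.StmtsC

/-!
# Squad ACK, row BFL (helper95): flype of a whole chain
-/

set_option autoImplicit false

namespace Pool.Agent.ACK.H95

open Pool.Agent.ACK

theorem bfl : C.BflStmt := by
  intro X
  induction X using List.reverseRecOn with
  | nil =>
    intro U A V B _
    simp
  | append_singleton Y x ih =>
    intro U A V B hG
    have e1 : (Y ++ [x]) ++ (U ++ ((Y ++ [x]).reverse ++ (A ++ (V ++ B)))) =
        Y ++ (x :: (U ++ x :: (Y.reverse ++ (A ++ (V ++ B))))) := by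
      simp [List.append_assoc]
    have e2 : (x :: (U ++ x :: (Y.reverse ++ (A ++ (V ++ B))))) ++ Y =
        x :: (U ++ x :: ((Y.reverse ++ A) ++ (V ++ (B ++ Y)))) := by
      simp [List.append_assoc]
    have e3 : U ++ ((Y.reverse ++ A) ++ x :: (V ++ x :: (B ++ Y))) =
        (U ++ (Y.reverse ++ (A ++ (x :: (V ++ x :: B))))) ++ Y := by
      simp [List.append_assoc]
    have e4 : Y ++ (U ++ (Y.reverse ++ (A ++ (x :: (V ++ x :: B))))) =
        Y ++ (U ++ (Y.reverse ++ ((A ++ [x]) ++ (V ++ (x :: B))))) := by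
      simp [List.append_assoc]
    have e5 : U ++ ((A ++ [x]) ++ (Y.reverse ++ (V ++ (Y ++ (x :: B))))) =
        U ++ (A ++ ((Y ++ [x]).reverse ++ (V ++ ((Y ++ [x]) ++ B)))) := by
      simp [List.append_assoc]
    calc Quot.mk Mv ((Y ++ [x]) ++ (U ++ ((Y ++ [x]).reverse ++ (A ++ (V ++ B)))))
        = Quot.mk Mv (Y ++ (x :: (U ++ x :: (Y.reverse ++ (A ++ (V ++ B)))))) := by rw [e1]
      _ = Quot.mk Mv ((x :: (U ++ x :: (Y.reverse ++ (A ++ (V ++ B))))) ++ Y) :=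
          Quot.sound (Mv.rot _ _)
      _ = Quot.mk Mv (x :: (U ++ x :: ((Y.reverse ++ A) ++ (V ++ (B ++ Y))))) := by rw [e2]
      _ = Quot.mk Mv (U ++ ((Y.reverse ++ A) ++ x :: (V ++ x :: (B ++ Y)))) :=
          Quot.sound (Mv.fl3 x U (Y.reverse ++ A) V (B ++ Y) hG)
      _ = Quot.mk Mv ((U ++ (Y.reverse ++ (A ++ (x :: (V ++ x :: B))))) ++ Y) := by rw [e3]
      _ = Quot.mk Mv (Y ++ (U ++ (Y.reverse ++ (A ++ (x :: (V ++ x :: B)))))) :=
          Quot.sound (Mv.rot _ _)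
      _ = Quot.mk Mv (Y ++ (U ++ (Y.reverse ++ ((A ++ [x]) ++ (V ++ (x :: B)))))) := by rw [e4]
      _ = Quot.mk Mv (U ++ ((A ++ [x]) ++ (Y.reverse ++ (V ++ (Y ++ (x :: B)))))) :=
          ih U (A ++ [x]) V (x :: B) hG
      _ = Quot.mk Mv (U ++ (A ++ ((Y ++ [x]).reverse ++ (V ++ ((Y ++ [x]) ++ B))))) := by rw [e5]

end Pool.Agent.ACK.H95
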