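import Mathlib
import Pool.Agent.ACK.StmtsA

set_option autoImplicit false

/-!
# Squad ACK, row COU: few classes with at most five chains
-/

namespace Pool.Agent.ACK.H95

open Pool.Agent.ACK

/-- lists of at most ten tokens with letters `< 5` -/
def TT : Set (List Tk) := {b | b.length ≤ 10 ∧ ∀ t ∈ b, t.1 < 5}

theorem lift_tok : ∀ b : List Tk, (∀ t ∈ b, t.1 < 5) →
    ∃ l : List (Fin 5 × Bool), l.map (fun t => (t.1.val, t.2)) = b := by
  intro b
  induction b with
  | nil => intro _; exact ⟨[], rfl⟩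
  | cons t b ih =>
    intro h
    obtain ⟨l, hl⟩ := ih (fun s hs => h s (List.mem_cons_of_mem _ hs))
    refine ⟨(⟨t.1, h t List.mem_cons_self⟩, t.2) :: l, ?_⟩
    rw [List.map_cons, hl]

theorem tt_finite : TT.Finite := by
  have h1 : {l : List (Fin 5 × Bool) | l.length ≤ 10}.Finite := List.finite_length_le _ 10
  refine (h1.image (fun l => l.map (fun t => (t.1.val, t.2)))).subset ?_
  rintro b ⟨hb1, hb2⟩
  obtain ⟨l, hl⟩ := lift_tok b hb2
  refine ⟨l, ?_, hl⟩
  have h3 : (l.map (fun t => (t.1.val, t.2))).length = l.length := List.length_map _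
  rw [hl] at h3
  show l.length ≤ 10
  omega

/-- the lengths of the chains from the first four -/
def AA (c : ℕ) (α : Fin 4 → Fin (c + 1)) (e : ℕ) : ℕ :=
  if h : e < 4 then (α ⟨e, h⟩ : ℕ) else c - ∑ i, (α i : ℕ)

theorem bl_congr (C C' : ℕ → List ℕ) (b : List Tk) (h : ∀ t ∈ b, C t.1 = C' t.1) :
    BL C b = BL C' b := by
  unfold BL
  induction b with
  | nil => rfl
  | cons t b ih =>
    rw [List.flatMap_cons, List.flatMap_cons, ih (fun s hs => h s (List.mem_cons_of_mem _ hs))]
    unfold bk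
    rw [h t List.mem_cons_self]

theorem sum_letters (m : List ℕ) (a : ℕ → ℕ) (hm : Gw m) :
    (m.map a).sum = 2 * ∑ e ∈ m.toFinset, a e := by
  classical
  rw [Finset.sum_list_map_count, Finset.mul_sum]
  refine Finset.sum_congr rfl fun e he => ?_
  rw [List.mem_toFinset] at he
  have h1 := hm e he
  have h2 : @List.count ℕ instBEqOfDecidableEq e m = 2 := by
    rw [← h1]
  rw [smul_eq_mul, h2]

theorem sum_five (m : List ℕ) (a : ℕ → ℕ) (hm : ∀ e ∈ m, e < 5) :
    ∑ e ∈ m.toFinset, a e =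
      (∑ i : Fin 4, if (i : ℕ) ∈ m then a i else 0) + if 4 ∈ m then a 4 else 0 := by
  have h1 : ∑ e ∈ m.toFinset, a e = ∑ e ∈ Finset.range 5, if e ∈ m then a e else 0 := by
    rw [← Finset.sum_filter]
    refine Finset.sum_congr ?_ fun _ _ => rfl
    ext e
    rw [List.mem_toFinset, Finset.mem_filter, Finset.mem_range]
    exact ⟨fun h => ⟨hm e h, h⟩, fun h => h.2⟩
  rw [h1, Finset.sum_range_succ, Finset.sum_range]

theorem cou (h1 : CwgStmt) (h2 : StdStmt) (h3 : RnmStmt) : CouStmt := by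
  classical
  refine ⟨tt_finite.toFinset.card, ?_⟩
  intro c
  let Φ : List Tk × (Fin 4 → Fin (c + 1)) → Quot Mv :=
    fun x => Quot.mk Mv (BL (sc 5 (AA c x.2)) x.1)
  have hsub : {q : Quot Mv | ∃ l, Fw c l ∧ Quot.mk Mv l = q} ⊆
      (((tt_finite.toFinset ×ˢ (Finset.univ : Finset (Fin 4 → Fin (c + 1)))).image Φ :
        Finset (Quot Mv)) : Set (Quot Mv)) := by
    rintro q ⟨l, ⟨C, b, hCW, hlen, hl, hl2⟩, rfl⟩
    obtain ⟨C', b', hCW', hb5, hblen, hBL⟩ := h3 5 C b (by norm_num) hCW (by omega)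
    have hst := h2 5 C' b' (by norm_num) hCW' hb5
    obtain ⟨-, hsum, -⟩ := h1 C' b' hCW'
    set a : ℕ → ℕ := fun e => (C' e).length with ha
    set m : List ℕ := b'.map Prod.fst with hm
    have hm5 : ∀ e ∈ m, e < 5 := by
      intro e he
      rw [hm, List.mem_map] at he
      obtain ⟨t, ht, rfl⟩ := he
      exact hb5 t ht
    have e1 : (m.map a).sum = 2 * c := by
      rw [← hl2, hl, ← hBL, hsum, hm, List.map_map]
      rfl
    rw [sum_letters m a hCW'.tw] at e1
    have e2 : ∑ e ∈ m.toFinset, a e = c := by omega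
    have hle : ∀ e ∈ m, a e ≤ c := by
      intro e he
      rw [← e2]
      exact Finset.single_le_sum (f := a) (fun _ _ => Nat.zero_le _) (List.mem_toFinset.mpr he)
    rw [sum_five m a hm5] at e2
    -- the parameters
    let α : Fin 4 → Fin (c + 1) := fun i =>
      if h : (i : ℕ) ∈ m then ⟨a i, Nat.lt_succ_of_le (hle i h)⟩ else 0
    have hα : ∀ i : Fin 4, (α i : ℕ) = if (i : ℕ) ∈ m then a i else 0 := by
      intro i
      by_cases h : (i : ℕ) ∈ m
      · rw [if_pos h]
        show ((if h : (i : ℕ) ∈ m then (⟨a i, Nat.lt_succ_of_le (hle i h)⟩ : Fin (c + 1)) else 0 :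
          Fin (c + 1)) : ℕ) = a i
        rw [dif_pos h]
      · rw [if_neg h]
        show ((if h : (i : ℕ) ∈ m then (⟨a i, Nat.lt_succ_of_le (hle i h)⟩ : Fin (c + 1)) else 0 :
          Fin (c + 1)) : ℕ) = 0
        rw [dif_neg h]
        rfl
    have hA : ∀ e ∈ m, AA c α e = a e := by
      intro e he
      unfold AA
      by_cases h4 : e < 4
      · rw [dif_pos h4, hα]
        rw [if_pos he]
      · rw [dif_neg h4]
        have he4 : e = 4 := by
          have := hm5 e he
          omega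
        subst he4
        rw [if_pos he] at e2
        have e3 : ∑ i : Fin 4, (α i : ℕ) = ∑ i : Fin 4, if (i : ℕ) ∈ m then a i else 0 :=
          Finset.sum_congr rfl fun i _ => hα i
        rw [e3]
        omega
    rw [Finset.mem_coe, Finset.mem_image]
    refine ⟨(b', α), ?_, ?_⟩
    · rw [Finset.mem_product]
      refine ⟨?_, Finset.mem_univ _⟩
      rw [Set.Finite.mem_toFinset]
      exact ⟨(by omega : b'.length ≤ 10), hb5⟩
    · show Quot.mk Mv (BL (sc 5 (AA c α)) b') = Quot.mk Mv l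
      rw [hl, ← hBL, hst]
      congr 1
      refine bl_congr _ _ b' fun t ht => ?_
      unfold sc
      rw [hA t.1 (List.mem_map.mpr ⟨t, ht, rfl⟩)]
  refine (Set.encard_le_encard hsub).trans ?_
  rw [Set.encard_coe_eq_coe_finsetCard]
  refine Nat.cast_le.mpr ?_
  refine Finset.card_image_le.trans ?_
  rw [Finset.card_product, Finset.card_univ, Fintype.card_fun, Fintype.card_fin, Fintype.card_fin]

end Pool.Agent.ACK.H95
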